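import Pool.Agent.H979.DE.Asm
import Pool.Agent.H284.DEONE
import Pool.Agent.H105.DELEVY
import Pool.Agent.H307.DEKEY
import Pool.Agent.H169.DESUP
import Pool.Agent.H276.DEMB
import Pool.Agent.H383.DEPZ
import Pool.Agent.H411.DEALG
import Pool.Agent.H358.DEMONO
import Pool.Agent.H746.DECONF
import Pool.Agent.H154.DEZINF
import Pool.Agent.H402.DEVAL
import Pool.Agent.H707.DECONS
import Pool.Agent.H546.DENG
import Pool.Agent.H404.DEIRG
import Pool.Agent.H161.DEH
import Pool.Agent.H314.DELAS
import Pool.Agent.H163.DELEX
import Pool.Agent.H229.DETRAP
import Pool.Agent.H788.DECYM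
import Pool.Agent.H763.DEREC
import Pool.Agent.H396.DESQ
import Pool.Agent.H903.DECIRC

/-!
# Directed edge reinforced random walk with polynomial reinforcement: the trapping thresholds

The walk of `MP_856411_pr` with polynomial reinforcement `γ > 0` (definitions `cross`, `wt`, `trans`,
`IsLaw`, `IsCircuit`, `Trapped` of the library file `H41/DerrwDefs`). `Trapped G` is the event `T`
that the walk is trapped in a directed circuit.

On every finite connected graph which is not a tree and on `ℤ^d`, `d ≥ 2`, there is a threshold
`γ_*(G)`: `P(T) = 0` for `γ ≤ γ_*` and `P(T) = 1` for `γ > γ_*`. It is `1/2` if `G` is a cycle (all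
degrees are two) and `1` for all the other graphs. The library has `P(T) = 0` below the threshold and
the case of the cycle; here `P(T) = 1` is proved for `γ > 1` on all these graphs.

Proof. Call a step regular if it crosses an edge with positive crossing number. After a regular step
another one is possible, and the total positive outflow of a vertex grows by one at each regular
departure and does not change otherwise; so the probability that the `k`-th step from a vertex is not
regular is at most `C k ^ (-γ)`, which is summable, and the probability that all the steps before the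
exit from a finite set are regular is bounded below by a positive constant which depends only on the
size of the set. Where no regular step is possible the walk makes simple random walk steps, and it
is led into a circuit. By Lévy's 0-1 law a walk confined to a finite set makes eventually only
regular steps. Then the exits of a vertex are those of an urn with weights `n ^ γ`, `γ > 1`, and a
second and fourth moment argument for the martingale `φ(A) - φ(B)`, `φ(m) = ∑_{j ≥ m} j ^ (-γ)`, shows
that only one exit is used infinitely often. So the walk is trapped. On `ℤ^d` a walk with infinite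
range has infinitely many record times of a coordinate, at each of which it is trapped in a fresh
square with a probability bounded below.
-/

set_option autoImplicit false

namespace Pool.Agent.Results.MP_856411_pr.TrappingThreshold

open MeasureTheory Pool.Agent.H41.Derrw Pool.Agent.H979.DE

/-- **Trapping thresholds.** (1) Let `G` be a finite connected graph which is not a tree. For every
`γ > 0` the walk exists, and it is trapped in a directed circuit: if `G` is a cycle (all the degrees
are two), with probability `0` for `γ ≤ 1/2` and with probability `1` for `γ > 1/2`; if `G` is not a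
cycle, with probability `0` for `γ ≤ 1` and with probability `1` for `γ > 1`. (2) On `ℤ^d`, `d ≥ 2`, the
walk exists and is trapped with probability `0` for `γ ≤ 1` and with probability `1` for `γ > 1`. -/
theorem result :
    (∀ (V : Type) [DecidableEq V] [Fintype V] [MeasurableSpace V] [DiscreteMeasurableSpace V]
      (G : SimpleGraph V) [G.LocallyFinite], G.Connected → ¬ G.IsTree → ∀ (γ : ℝ) (v : V), 0 < γ →
      (∃ P, IsLaw G γ v P) ∧ ∀ P, IsLaw G γ v P →
        ((∀ x, G.degree x = 2) →
          (γ ≤ 1 / 2 → P (Trapped G) = 0) ∧ (1 / 2 < γ → P (Trapped G) = 1)) ∧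
        ((∃ x, G.degree x ≠ 2) →
          (γ ≤ 1 → P (Trapped G) = 0) ∧ (1 < γ → P (Trapped G) = 1))) ∧
    (∀ (d : ℕ) [MeasurableSpace (Fin d → ℤ)] [DiscreteMeasurableSpace (Fin d → ℤ)], 2 ≤ d →
      ∀ (γ : ℝ) (v : Fin d → ℤ), 0 < γ →
      (∃ P, IsLaw (Zd d) γ v P) ∧ ∀ P, IsLaw (Zd d) γ v P →
        (γ ≤ 1 → P (Trapped (Zd d)) = 0) ∧ (1 < γ → P (Trapped (Zd d)) = 1)) := by
  have hCONS : S_CONS := H707.de_cons
  have hGNEXT : S_GNEXT := H707.de_gnext hCONS
  have hOUT : S_OUT := H707.de_out
  have hNG : S_NG := H546.de_ng hCONS
  have hIRC : S_IRC := H546.de_irc hCONS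
  have hIRG : S_IRG := H404.de_irg
  have hPG : S_PG := H404.de_pg
  have hH : S_H := H161.de_h
  have hVAL : S_VAL := H402.de_val
  have hFOLLOW : S_FOLLOW := H402.de_follow hNG
  have hONE : S_ONE := H284.de_one
  have hLEVY : S_LEVY := H105.de_levy
  have hKEY : S_KEY := H307.de_key hONE hGNEXT hOUT hVAL
  have hLAS : S_LAS := H314.de_las hNG
  have hLEXZ : S_LEXZ := H314.de_lexz hLAS
  have hLEX : S_LEX := H163.de_lex hLAS
  have hTRAP : S_TRAP := H229.de_trap
  have hCYM : S_CYM := H788.de_cym hCONS
  have hREC : S_REC := H763.de_rec
  have hZDEG : S_ZDEG := H763.de_zdeg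
  have hSQ : S_SQ := H396.de_sq
  have hCIRC : S_CIRC := H903.de_circ
  have hTL : S_TL := H411.de_tl
  have hALG : S_ALG := H411.de_alg hTL
  have hPZ : S_PZ := H383.de_pz
  have hSUP : S_SUP := H169.de_sup hONE
  have hMB : S_MB := H276.de_mb hSUP hALG hPZ hTL
  have hMONO : S_MONO := H358.de_mono hMB hLEVY hVAL
  have hCONF : S_CONF := H746.de_conf hKEY hFOLLOW hLEVY hVAL
  have hZINF : S_ZINF := H154.de_zinf hSQ hFOLLOW hKEY hLEVY hVAL hZDEG hIRG hPG hH
  exact main hCONF hTRAP hCYM hMONO hLEX hLEXZ hIRG hIRC hPG hH hVAL hZDEG hREC hZINF hCIRC

end Pool.Agent.Results.MP_856411_pr.TrappingThreshold
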